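import Pool.Agent.H29.LG.Targets
import Pool.Agent.H11.RDD.RS

/-!
MP_c65535_nt, board lgx_modules, row EXTP: extension of finite places.
-/

set_option autoImplicit false

namespace Pool.Agent.H18.LG

open NumberField Height Finset Polynomial Pool.Agent.H24.RD Pool.Agent.H23.RDD Pool.Agent.H29.RQ
  Pool.Agent.H29.SX Pool.Agent.H29.LG IsDedekindDomain HeightOneSpectrum

theorem pf_EXTP (_ : T_RS) : T_EXTP := by
  intro M M' _ _ _ _ _ w
  obtain ⟨P, hPw⟩ : ∃ P : HeightOneSpectrum (𝓞 M), FinitePlace.mk P = w :=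
    ⟨w.maximalIdeal, w.mk_maximalIdeal⟩
  have hPm : P.asIdeal.IsMaximal := P.isMaximal
  obtain ⟨q, hqm, hq⟩ := Ideal.exists_maximal_ideal_liesOver_of_isIntegral (S := 𝓞 M') P.asIdeal
  have hq0 : q ≠ ⊥ := Ideal.ne_bot_of_liesOver_of_ne_bot P.ne_bot q
  let Q : HeightOneSpectrum (𝓞 M') := ⟨q, hqm.isPrime, hq0⟩
  have : Q.asIdeal.LiesOver P.asIdeal := hq
  have he : 0 < P.asIdeal.ramificationIdx' Q.asIdeal :=
    Nat.pos_of_ne_zero (Ideal.IsDedekindDomain.ramificationIdx'_ne_zero_of_liesOver Q.asIdeal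
      P.ne_bot)
  have hP : (1 : ℝ) < (Ideal.absNorm P.asIdeal : ℕ) := by
    exact_mod_cast HeightOneSpectrum.one_lt_absNorm P
  have hQ' : (1 : ℝ) < (Ideal.absNorm Q.asIdeal : ℕ) := by
    exact_mod_cast HeightOneSpectrum.one_lt_absNorm Q
  have hk : 0 < Real.log (Ideal.absNorm Q.asIdeal : ℕ) /
      Real.log (Ideal.absNorm P.asIdeal : ℕ) *
      (P.asIdeal.ramificationIdx' Q.asIdeal : ℕ) := by
    have h1 := Real.log_pos hP
    have h2 := Real.log_pos hQ'
    positivity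
  refine ⟨FinitePlace.mk Q, Real.log (Ideal.absNorm Q.asIdeal : ℕ) /
    Real.log (Ideal.absNorm P.asIdeal : ℕ) *
    (P.asIdeal.ramificationIdx' Q.asIdeal : ℕ), hk, ?_⟩
  intro x
  rcases eq_or_ne x 0 with rfl | hx
  · rw [map_zero, map_zero, map_zero, Real.zero_rpow hk.ne']
  · rw [← hPw, Pool.Agent.H11.RDD.abv_eq, Pool.Agent.H11.RDD.abv_eq,
      ← valuation_liesOver M' P Q x, map_pow, NNReal.coe_pow]
    have hv : P.valuation M x ≠ 0 := (Valuation.ne_zero_iff _).2 hx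
    rw [WithZeroMulInt.toNNReal_neg_apply _ hv, WithZeroMulInt.toNNReal_neg_apply _ hv,
      NNReal.coe_zpow, NNReal.coe_zpow, NNReal.coe_natCast, NNReal.coe_natCast]
    exact Pool.Agent.H11.RDD.pow_aux hP hQ' _ _

end Pool.Agent.H18.LG
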