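import Pool.Agent.H29.LG.Targets
import Pool.Agent.H31.RD.KT

/-!
MP_c65535_nt, board lgx_modules, row KTA: roots of elements of the group in cyclotomic fields.
-/

set_option autoImplicit false

namespace Pool.Agent.H18.LG

open NumberField Height Finset Polynomial Pool.Agent.H24.RD Pool.Agent.H23.RDD Pool.Agent.H29.RQ
  Pool.Agent.H29.SX Pool.Agent.H29.LG

theorem kta_le (F Ω : Type) [Field F] [Field Ω] [Algebra F Ω] {r : ℕ} (γ : Fin r → F) (N : ℕ) :
    Lv F Ω γ N 1 ≤ IntermediateField.adjoin F {z : Ω | z ^ N = 1} := by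
  unfold Lv
  rw [IntermediateField.adjoin_le_iff]
  rintro z (hz | ⟨i, hz⟩)
  · exact IntermediateField.subset_adjoin F _ hz
  · rw [pow_one] at hz
    rw [hz]
    exact (IntermediateField.adjoin F {z : Ω | z ^ N = 1}).algebraMap_mem (γ i)

theorem pf_KTA (h : T_SAT) : T_KTA := by
  intro F Ω _ _ _ _ _ _ _ r γ hγ
  have : IsAlgClosure F Ω := ⟨inferInstance, inferInstance⟩
  have : IsGalois F Ω := IsAlgClosure.isGalois F Ω
  obtain ⟨e, he, hsat⟩ := h F r γ hγ
  refine ⟨e * Units.torsionOrder F, Nat.mul_pos he (Units.torsionOrder_pos F), ?_⟩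
  intro N hN x y hy hyx
  have : NeZero N := ⟨hN.ne'⟩
  have hN0 : (N : ℤ) ≠ 0 := by exact_mod_cast hN.ne'
  obtain ⟨ζ, hζ⟩ := HasEnoughRootsOfUnity.exists_primitiveRoot Ω N
  have hyc := kta_le F Ω γ N hy
  set G : F := ∏ i, γ i ^ x i with hG
  have hG0 : G ≠ 0 := Finset.prod_ne_zero_iff.2 fun i _ => zpow_ne_zero _ (hγ.1 i)
  have hyG : y ^ N = algebraMap F Ω G := by
    rw [hyx, hG, map_prod]
    exact Finset.prod_congr rfl fun i _ => (map_zpow₀ _ _ _).symm
  have hy0 : y ≠ 0 := by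
    intro h
    rw [h, zero_pow hN.ne'] at hyG
    exact hG0 ((map_eq_zero (algebraMap F Ω)).1 hyG.symm)
  -- the exponents of the automorphisms
  have hpow : ∀ τ : Ω ≃ₐ[F] Ω, ∃ u : ℕ, 1 ≤ u ∧ τ ζ = ζ ^ u := by
    intro τ
    have h1 : (τ ζ) ^ N = 1 := by rw [← map_pow, hζ.pow_eq_one, map_one]
    obtain ⟨i, -, hi⟩ := hζ.eq_pow_of_pow_eq_one h1
    exact ⟨i + N, by omega, by rw [pow_add, hζ.pow_eq_one, mul_one, hi]⟩
  let J : AddSubgroup ℤ :=
    { carrier := {k | ∀ i, (N : ℤ) ∣ e * (k * x i)}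
      zero_mem' := fun i => by simp
      add_mem' := by
        intro a b ha hb i
        have := dvd_add (ha i) (hb i)
        rwa [← mul_add, ← add_mul] at this
      neg_mem' := by
        intro a ha i
        have := (dvd_neg (a := (N : ℤ))).2 (ha i)
        rwa [← mul_neg, ← neg_mul] at this }
  have hJ : ∀ k : ℤ, k ∈ J ↔ ∀ i, (N : ℤ) ∣ e * (k * x i) := fun k => Iff.rfl
  have hmem : ∀ (τ : Ω ≃ₐ[F] Ω) (u : ℕ), 1 ≤ u → τ ζ = ζ ^ u → ((u - 1 : ℕ) : ℤ) ∈ J := by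
    intro τ u hu1 hu
    have hτ1 : ∀ χ : Ω, χ ^ N = 1 → τ χ = χ ^ u := by
      intro χ hχ
      obtain ⟨j, -, rfl⟩ := hζ.eq_pow_of_pow_eq_one hχ
      rw [map_pow, hu, ← pow_mul, ← pow_mul, mul_comm]
    set z0 : Ω := y ^ u / τ y with hz0
    have hfix : ∀ σ : Ω ≃ₐ[F] Ω, σ z0 = z0 := by
      intro σ
      set χ : Ω := σ y / y with hχ
      have hσy : σ y = χ * y := by rw [hχ, div_mul_cancel₀ _ hy0]
      have hχ0 : χ ≠ 0 := div_ne_zero ((map_ne_zero σ).2 hy0) hy0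
      have hχ1 : χ ^ N = 1 := by
        rw [hχ, div_pow, ← map_pow, hyG, AlgEquiv.commutes]
        exact div_self ((map_ne_zero (algebraMap F Ω)).2 hG0)
      rw [hz0, map_div₀, map_pow, Pool.Agent.H31.RD.kt_comm F Ω N hN σ τ y hyc, hσy, map_mul,
        hτ1 χ hχ1, mul_pow]
      exact mul_div_mul_left _ _ (pow_ne_zero _ hχ0)
    obtain ⟨z, hz⟩ := (InfiniteGalois.mem_range_algebraMap_iff_fixed z0).2 hfix
    have hzpow : z ^ N = ∏ i, γ i ^ (((u - 1 : ℕ) : ℤ) * x i) := by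
      apply (algebraMap F Ω).injective
      have h1 : z0 ^ N = (algebraMap F Ω G) ^ (u - 1) := by
        rw [hz0, div_pow, ← pow_mul, mul_comm u, pow_mul, hyG, ← map_pow τ, hyG,
          AlgEquiv.commutes]
        have h2 : algebraMap F Ω G ≠ 0 := (map_ne_zero (algebraMap F Ω)).2 hG0
        rw [div_eq_iff h2, ← pow_succ]
        congr 1
        omega
      rw [map_pow, hz, h1, ← map_pow]
      congr 1
      rw [hG, ← Finset.prod_pow]
      refine Finset.prod_congr rfl fun i _ => ?_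
      rw [← zpow_natCast, ← zpow_mul, mul_comm]
    rw [hJ]
    exact fun i => hsat z N (fun i => ((u - 1 : ℕ) : ℤ) * x i) hN hzpow i
  obtain ⟨a, ha⟩ := Int.subgroup_cyclic J
  rw [← AddSubgroup.zmultiples_eq_closure] at ha
  have hdv : ∀ k ∈ J, a ∣ k := by
    intro k hk
    rw [ha] at hk
    exact Int.mem_zmultiples_iff.1 hk
  have haJ : a ∈ J := by
    rw [ha]
    exact AddSubgroup.mem_zmultiples a
  have hNJ : (N : ℤ) ∈ J := by
    rw [hJ]
    intro i
    exact ⟨e * x i, by ring⟩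
  have haN : a ∣ (N : ℤ) := hdv _ hNJ
  have hgN : a.natAbs ∣ N := by
    have := Int.natAbs_dvd_natAbs.2 haN
    rwa [Int.natAbs_natCast] at this
  obtain ⟨m, hm⟩ := hgN
  have hprim : IsPrimitiveRoot (ζ ^ m) a.natAbs := hζ.pow hN (by rw [hm, mul_comm])
  have hg0 : a.natAbs ≠ 0 := by
    rintro h0
    rw [h0, zero_mul] at hm
    exact hN.ne' hm
  have hfix : ∀ τ : Ω ≃ₐ[F] Ω, τ (ζ ^ m) = ζ ^ m := by
    intro τ
    obtain ⟨u, hu1, hu⟩ := hpow τ
    have h1 := hdv _ (hmem τ u hu1 hu)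
    have h2 : a.natAbs ∣ u - 1 := by
      have := Int.natAbs_dvd_natAbs.2 h1
      rwa [Int.natAbs_natCast] at this
    obtain ⟨c, hc⟩ := h2
    have h3 : u = a.natAbs * c + 1 := by omega
    rw [map_pow, hu, ← pow_mul, h3, add_mul, one_mul, pow_add]
    have h4 : a.natAbs * c * m = N * c := by
      conv_rhs => rw [hm]
      ring
    rw [h4, pow_mul, hζ.pow_eq_one, one_pow, one_mul]
  obtain ⟨η, hη⟩ := (InfiniteGalois.mem_range_algebraMap_iff_fixed (ζ ^ m)).2 hfix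
  have hηp : IsPrimitiveRoot η a.natAbs := by
    rw [← hη] at hprim
    exact hprim.of_map_of_injective (algebraMap F Ω).injective
  have : NeZero a.natAbs := ⟨hg0⟩
  have hw := Units.dvd_torsionOrder_of_isPrimitiveRoot hηp
  obtain ⟨c, hc⟩ := hw
  intro i
  have h1 := (hJ a).1 haJ i
  have h2 : (N : ℤ) ∣ e * (((a.natAbs : ℕ) : ℤ) * x i) := by
    rcases Int.natAbs_eq a with h3 | h3
    · rwa [← h3]
    · have h4 : ((a.natAbs : ℕ) : ℤ) = -a := by omega
      rw [h4, neg_mul, mul_neg]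
      exact (dvd_neg).2 h1
  rw [hc]
  have h3 : ((e * (a.natAbs * c) : ℕ) : ℤ) * x i =
      (e * (((a.natAbs : ℕ) : ℤ) * x i)) * c := by
    push_cast
    ring
  rw [h3]
  exact h2.mul_right _

end Pool.Agent.H18.LG
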