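import Pool.Agent.H29.LG.Targets
import Pool.Agent.H11.RDD.RS

/-!
MP_c65535_nt, board lgx_modules, row UNR: almost all primes are good.
-/

set_option autoImplicit false

namespace Pool.Agent.H18.LG

open NumberField Height Finset Polynomial Pool.Agent.H24.RD Pool.Agent.H23.RDD Pool.Agent.H29.RQ
  Pool.Agent.H29.SX Pool.Agent.H29.LG IsDedekindDomain HeightOneSpectrum

theorem unr_val (F : Type) [Field F] [NumberField F] (p : ℕ) (hp : p.Prime)
    (hd : ¬ (p : ℤ) ∣ discr F) (P : HeightOneSpectrum (𝓞 F)) (hP : ((p : ℤ) : 𝓞 F) ∈ P.asIdeal) :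
    P.valuation F (p : F) = WithZero.exp (-1 : ℤ) := by
  have hpz : Prime (p : ℤ) := Nat.prime_iff_prime_int.1 hp
  have hun : Algebra.IsUnramifiedAt ℤ P.asIdeal :=
    (NumberField.not_dvd_discr_iff_forall_mem F (𝓞 F) hpz).1 hd P.asIdeal P.isPrime hP
  have e1 : P.asIdeal.ramificationIdx ℤ = 1 :=
    Ideal.ramificationIdx_eq_one_of_isUnramifiedAt
  let v : HeightOneSpectrum ℤ := ⟨Ideal.span {(p : ℤ)}, by
    rw [Ideal.span_singleton_prime hpz.ne_zero]
    exact hpz, by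
    rw [Ne, Ideal.span_singleton_eq_bot]
    exact hpz.ne_zero⟩
  have hl : P.asIdeal.LiesOver v.asIdeal :=
    (Ideal.liesOver_span_iff P.isPrime.ne_top hpz).mpr hP
  have e2 : v.asIdeal.ramificationIdx' P.asIdeal = 1 := by
    rw [Ideal.ramificationIdx'_eq_ramificationIdx v.asIdeal P.asIdeal v.ne_bot, e1]
  have h1 := valuation_liesOver F v P (p : ℚ)
  rw [e2, pow_one] at h1
  have h3 : algebraMap ℚ F (p : ℚ) = (p : F) := map_natCast _ p
  rw [h3] at h1
  rw [← h1]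
  have h2 : v.valuation ℚ (algebraMap ℤ ℚ (p : ℤ)) = WithZero.exp (-1 : ℤ) := by
    rw [valuation_of_algebraMap]
    exact v.intValuation_singleton hpz.ne_zero rfl
  rw [← h2]
  simp

theorem pf_UNR : T_UNR := by
  intro F _ _ r γ hγ
  have hna : ∀ w : FinitePlace F, IsNonarchimedean w.1 := fun w x y => w.add_le x y
  have hint : ∀ (w : FinitePlace F) (n : ℤ), w.1 (n : F) ≤ 1 := fun w n =>
    (hna w).apply_intCast_le_one
  have hB : (⋃ i : Fin r, {w : FinitePlace F | w.1 (γ i) ≠ 1}).Finite :=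
    Set.finite_iUnion fun i => FinitePlace.hasFiniteMulSupport (hγ i)
  have hQ : (⋃ w ∈ (⋃ i : Fin r, {w : FinitePlace F | w.1 (γ i) ≠ 1}),
      {q : ℕ | q.Prime ∧ w.1 (q : F) < 1}).Finite := by
    refine hB.biUnion fun w _ => Set.Subsingleton.finite ?_
    rintro p ⟨hp, hp1⟩ q ⟨hq, hq1⟩
    by_contra hne
    have hco : IsCoprime (p : ℤ) (q : ℤ) :=
      Nat.isCoprime_iff_coprime.2 ((Nat.coprime_primes hp hq).2 hne)
    obtain ⟨a, b, hab⟩ := hco
    have h1 : ((a : ℤ) : F) * (p : F) + ((b : ℤ) : F) * (q : F) = 1 := by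
      have h2 := congrArg (Int.cast : ℤ → F) hab
      push_cast at h2
      exact h2
    have h2 : w.1 (((a : ℤ) : F) * (p : F) + ((b : ℤ) : F) * (q : F)) < 1 := by
      refine lt_of_le_of_lt (hna w _ _) (max_lt ?_ ?_)
      · rw [map_mul]
        exact lt_of_le_of_lt (mul_le_of_le_one_left (w.1.nonneg _) (hint w a)) hp1
      · rw [map_mul]
        exact lt_of_le_of_lt (mul_le_of_le_one_left (w.1.nonneg _) (hint w b)) hq1
    rw [h1, map_one] at h2
    exact lt_irrefl _ h2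
  obtain ⟨Y, hY⟩ := hQ.bddAbove
  refine ⟨Y + 1 + (discr F).natAbs + 1, fun p hp hpY => ⟨hp, fun w hw => ⟨?_, fun i => ?_⟩⟩⟩
  · have hd : ¬ (p : ℤ) ∣ discr F := by
      intro h
      have h1 := Int.natAbs_dvd_natAbs.2 h
      have h2 : (discr F).natAbs ≠ 0 := Int.natAbs_ne_zero.2 (discr_ne_zero F)
      have h3 := Nat.le_of_dvd (Nat.pos_of_ne_zero h2) h1
      rw [Int.natAbs_natCast] at h3
      omega
    obtain ⟨P, rfl⟩ : ∃ P : HeightOneSpectrum (𝓞 F), FinitePlace.mk P = w :=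
      ⟨w.maximalIdeal, w.mk_maximalIdeal⟩
    have hmem : ((p : ℤ) : 𝓞 F) ∈ P.asIdeal := by
      rw [← FinitePlace.norm_lt_one_iff_mem F]
      have h1 : (FinitePlace.mk P).1 (p : F) = ‖FinitePlace.embedding P (p : F)‖ := rfl
      rw [h1] at hw
      simpa using hw
    have hval := unr_val F p hp hd P hmem
    have hN : (Ideal.absNorm P.asIdeal : ℝ) ≠ 0 := by
      have h1 := HeightOneSpectrum.one_lt_absNorm P
      have h2 : (1 : ℝ) < (Ideal.absNorm P.asIdeal : ℕ) := by exact_mod_cast h1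
      linarith
    have hpw : (FinitePlace.mk P).1 (p : F) = ((Ideal.absNorm P.asIdeal : ℕ) : ℝ) ^ (-1 : ℤ) := by
      rw [Pool.Agent.H11.RDD.abv_eq, hval,
        WithZeroMulInt.toNNReal_neg_apply _ WithZero.exp_ne_zero, NNReal.coe_zpow,
        NNReal.coe_natCast]
      rfl
    intro x hx
    have hv : P.valuation F x ≠ 0 := (Valuation.ne_zero_iff _).2 hx
    refine ⟨-(WithZero.unzero hv).toAdd, ?_⟩
    rw [hpw, Pool.Agent.H11.RDD.abv_eq, WithZeroMulInt.toNNReal_neg_apply _ hv, NNReal.coe_zpow,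
      NNReal.coe_natCast, ← zpow_mul]
    congr 1
    ring
  · by_contra hne
    have h1 : p ∈ ⋃ w ∈ (⋃ i : Fin r, {w : FinitePlace F | w.1 (γ i) ≠ 1}),
        {q : ℕ | q.Prime ∧ w.1 (q : F) < 1} :=
      Set.mem_biUnion (Set.mem_iUnion.2 ⟨i, hne⟩) ⟨hp, hw⟩
    have h2 := hY h1
    omega

end Pool.Agent.H18.LG
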