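import Pool.Agent.H29.LG.Targets

/-!
MP_c65535_nt, board lgx_modules, row VCL: the automorphisms which fix the lower level field are few
and central.
-/

set_option autoImplicit false

namespace Pool.Agent.H18.LG

open NumberField Height Finset Polynomial Pool.Agent.H24.RD Pool.Agent.H23.RDD Pool.Agent.H29.RQ
  Pool.Agent.H29.SX Pool.Agent.H29.LG

/-- An automorphism which fixes the generators of the level field fixes the level field. -/
theorem vcl_fix (F Ω : Type) [Field F] [Field Ω] [Algebra F Ω] {r : ℕ} (γ : Fin r → F) (N K : ℕ)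
    (ρ : Ω ≃ₐ[F] Ω)
    (hρ : ∀ z : Ω, (z ^ N = 1 ∨ ∃ i, z ^ K = algebraMap F Ω (γ i)) → ρ z = z) :
    ∀ z ∈ Lv F Ω γ N K, ρ z = z := by
  have hle : Lv F Ω γ N K ≤ IntermediateField.fixedField (Subgroup.zpowers ρ) := by
    unfold Lv
    rw [IntermediateField.adjoin_le_iff]
    intro z hz
    have h2 : ρ z = z := hρ z hz
    intro ⟨g, hg⟩
    obtain ⟨k, rfl⟩ := Subgroup.mem_zpowers_iff.1 hg
    have hst : ρ ∈ MulAction.stabilizer (Ω ≃ₐ[F] Ω) z := h2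
    exact (MulAction.stabilizer (Ω ≃ₐ[F] Ω) z).zpow_mem hst k
  intro z hz
  exact hle hz ⟨ρ, Subgroup.mem_zpowers ρ⟩

theorem pf_VCL (_ : T_LVB) : T_VCL := by
  classical
  intro F Ω _ _ _ _ _ _ _ r γ hγ p hp N K hN hKN hpK hpN
  obtain ⟨N₀, rfl⟩ := hpN
  have hp0 : 0 < p := hp.pos
  have hN₀ : 0 < N₀ := Nat.pos_of_mul_pos_left hN |> fun h => by
    rcases Nat.eq_zero_or_pos N₀ with h0 | h0
    · rw [h0, mul_zero] at hN
      exact absurd hN (lt_irrefl _)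
    · exact h0
  rw [Nat.mul_div_cancel_left N₀ hp0]
  have hKN₀ : K ∣ N₀ := ((Nat.Prime.coprime_iff_not_dvd hp).2 hpK).symm.dvd_of_dvd_mul_left hKN
  have : NeZero (p * N₀) := ⟨hN.ne'⟩
  have : NeZero p := ⟨hp0.ne'⟩
  obtain ⟨ζ, hζ⟩ := HasEnoughRootsOfUnity.exists_primitiveRoot Ω (p * N₀)
  have hζ0 : ζ ≠ 0 := hζ.ne_zero hN.ne'
  set H := (Lv F Ω γ (p * N₀) K).fixingSubgroup with hH
  set G := (Lv F Ω γ N₀ K).fixingSubgroup with hG
  have hGm : ∀ σ : Ω ≃ₐ[F] Ω, σ ∈ G ↔ ∀ z ∈ Lv F Ω γ N₀ K, σ z = z := fun σ =>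
    IntermediateField.mem_fixingSubgroup_iff _ σ
  have hHm : ∀ σ : Ω ≃ₐ[F] Ω, σ ∈ H ↔ ∀ z ∈ Lv F Ω γ (p * N₀) K, σ z = z := fun σ =>
    IntermediateField.mem_fixingSubgroup_iff _ σ
  have hmem0 : ∀ z : Ω, (z ^ N₀ = 1 ∨ ∃ i, z ^ K = algebraMap F Ω (γ i)) →
      z ∈ Lv F Ω γ N₀ K := fun z hz => IntermediateField.subset_adjoin F _ hz
  have hmem1 : ∀ z : Ω, (z ^ (p * N₀) = 1 ∨ ∃ i, z ^ K = algebraMap F Ω (γ i)) →
      z ∈ Lv F Ω γ (p * N₀) K := fun z hz => IntermediateField.subset_adjoin F _ hz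
  have hpow : ∀ f : Ω ≃ₐ[F] Ω, ∃ i : ℕ, f ζ = ζ ^ i := by
    intro f
    have h1 : (f ζ) ^ (p * N₀) = 1 := by rw [← map_pow, hζ.pow_eq_one, map_one]
    obtain ⟨i, -, hi⟩ := hζ.eq_pow_of_pow_eq_one h1
    exact ⟨i, hi.symm⟩
  -- an automorphism which fixes the smaller field and `ζ` fixes the larger field
  have hker : ∀ σ ∈ G, σ ζ = ζ → σ ∈ H := by
    intro σ hσ hσζ
    rw [hHm]
    apply vcl_fix
    rintro z (hz | hz)
    · obtain ⟨j, -, rfl⟩ := hζ.eq_pow_of_pow_eq_one hz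
      rw [map_pow, hσζ]
    · exact (hGm σ).1 hσ z (hmem0 z (Or.inr hz))
  have hker' : ∀ σ ∈ H, σ ζ = ζ := by
    intro σ hσ
    exact (hHm σ).1 hσ ζ (hmem1 ζ (Or.inl hζ.pow_eq_one))
  have hroot : ∀ σ ∈ G, (σ ζ / ζ) ^ p = 1 := by
    intro σ hσ
    have h1 : σ (ζ ^ p) = ζ ^ p := by
      refine (hGm σ).1 hσ _ (hmem0 _ (Or.inl ?_))
      rw [← pow_mul, hζ.pow_eq_one]
    rw [div_pow, ← map_pow, h1, div_self (pow_ne_zero _ hζ0)]
  have hcard : Nat.card (rootsOfUnity p Ω) = p := HasEnoughRootsOfUnity.natCard_rootsOfUnity Ω p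
  have hfin : Finite (rootsOfUnity p Ω) := inferInstance
  -- the values
  let ω : G → Ωˣ := fun σ => Units.mk0 ((σ : Ω ≃ₐ[F] Ω) ζ / ζ)
    (div_ne_zero ((map_ne_zero (σ : Ω ≃ₐ[F] Ω)).2 hζ0) hζ0)
  have hω : ∀ σ : G, ω σ ∈ rootsOfUnity p Ω := by
    intro σ
    rw [mem_rootsOfUnity']
    exact hroot σ.1 σ.2
  have hinj : Function.Injective (fun q : G ⧸ H.subgroupOf G =>
      (⟨ω q.out, hω q.out⟩ : rootsOfUnity p Ω)) := by
    intro q q' hq
    have h1 : ω q.out = ω q'.out := congrArg Subtype.val hq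
    have h2 : (q.out : Ω ≃ₐ[F] Ω) ζ / ζ = (q'.out : Ω ≃ₐ[F] Ω) ζ / ζ := congrArg Units.val h1
    have h3 : (q.out : Ω ≃ₐ[F] Ω) ζ = (q'.out : Ω ≃ₐ[F] Ω) ζ := by
      field_simp at h2
      exact h2
    rw [← QuotientGroup.out_eq' q, ← QuotientGroup.out_eq' q', QuotientGroup.eq,
      Subgroup.mem_subgroupOf]
    apply hker
    · exact (q.out⁻¹ * q'.out).2
    · change ((q.out : Ω ≃ₐ[F] Ω)⁻¹ * (q'.out : Ω ≃ₐ[F] Ω)) ζ = ζ
      rw [AlgEquiv.mul_apply, ← h3, ← AlgEquiv.mul_apply, inv_mul_cancel]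
      rfl
  have hle : Nat.card (G ⧸ H.subgroupOf G) ≤ p := by
    rw [← hcard]
    exact Nat.card_le_card_of_injective _ hinj
  have hfinq : Finite (G ⧸ H.subgroupOf G) := Finite.of_injective _ hinj
  have hrel : H.relIndex G = Nat.card (G ⧸ H.subgroupOf G) := rfl
  refine ⟨?_, ?_, ?_, ?_⟩
  · rw [hrel]
    exact Nat.card_pos
  · rw [hrel]
    exact hle
  · intro hpp
    have hpN₀ : p ∣ N₀ := by
      rw [pow_two] at hpp
      exact Nat.dvd_of_mul_dvd_mul_left hp0 hpp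
    have hfixr : ∀ σ ∈ G, ∀ z : Ω, z ^ p = 1 → σ z = z := by
      intro σ hσ z hz
      refine (hGm σ).1 hσ _ (hmem0 _ (Or.inl ?_))
      obtain ⟨c, hc⟩ := hpN₀
      rw [hc, pow_mul, hz, one_pow]
    let φ : G →* Ωˣ :=
      { toFun := ω
        map_one' := by
          apply Units.ext
          change (1 : Ω ≃ₐ[F] Ω) ζ / ζ = 1
          rw [AlgEquiv.one_apply, div_self hζ0]
        map_mul' := by
          intro σ τ
          apply Units.ext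
          change ((σ : Ω ≃ₐ[F] Ω) * (τ : Ω ≃ₐ[F] Ω)) ζ / ζ =
            ((σ : Ω ≃ₐ[F] Ω) ζ / ζ) * ((τ : Ω ≃ₐ[F] Ω) ζ / ζ)
          have h1 : (τ : Ω ≃ₐ[F] Ω) ζ = ((τ : Ω ≃ₐ[F] Ω) ζ / ζ) * ζ := by
            rw [div_mul_cancel₀ _ hζ0]
          have h2 := hfixr σ.1 σ.2 _ (hroot τ.1 τ.2)
          rw [AlgEquiv.mul_apply]
          conv_lhs => rw [h1, map_mul, h2]
          ring }
    have hkφ : φ.ker = H.subgroupOf G := by
      ext σ
      rw [MonoidHom.mem_ker, Subgroup.mem_subgroupOf]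
      constructor
      · intro h
        apply hker σ.1 σ.2
        have h1 : (σ : Ω ≃ₐ[F] Ω) ζ / ζ = 1 := congrArg Units.val h
        rwa [div_eq_one_iff_eq hζ0] at h1
      · intro h
        apply Units.ext
        change (σ : Ω ≃ₐ[F] Ω) ζ / ζ = 1
        rw [hker' σ.1 h, div_self hζ0]
    have h1 : H.relIndex G = Nat.card φ.range := by
      rw [← Subgroup.index_ker, hkφ]
      rfl
    rw [h1]
    conv_rhs => rw [← hcard]
    apply Subgroup.card_dvd_of_le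
    rintro _ ⟨σ, rfl⟩
    exact hω σ
  · intro σ hσ τ z hz
    obtain ⟨a, ha⟩ := hpow σ
    obtain ⟨b, hb⟩ := hpow τ
    have hgen : ∀ z : Ω, (z ^ (p * N₀) = 1 ∨ ∃ i, z ^ K = algebraMap F Ω (γ i)) →
        σ (τ z) = τ (σ z) := by
      rintro z (hz | ⟨i, hi⟩)
      · obtain ⟨j, -, rfl⟩ := hζ.eq_pow_of_pow_eq_one hz
        simp only [map_pow, ha, hb, ← pow_mul]
        congr 1
        ring
      · have h1 : σ z = z := (hGm σ).1 hσ z (hmem0 z (Or.inr ⟨i, hi⟩))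
        have h2 : σ (τ z) = τ z := by
          refine (hGm σ).1 hσ _ (hmem0 _ (Or.inr ⟨i, ?_⟩))
          rw [← map_pow, hi, AlgEquiv.commutes]
        rw [h1, h2]
    set ρ : Ω ≃ₐ[F] Ω := (τ * σ)⁻¹ * (σ * τ) with hρ
    have hρz : ∀ z : Ω, σ (τ z) = τ (σ z) ↔ ρ z = z := by
      intro z
      constructor
      · intro h
        have h1 : (σ * τ) z = (τ * σ) z := h
        rw [hρ, AlgEquiv.mul_apply, h1, ← AlgEquiv.mul_apply, inv_mul_cancel]
        rfl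
      · intro h
        have h1 := congrArg (τ * σ) h
        rw [hρ, ← AlgEquiv.mul_apply, ← mul_assoc, mul_inv_cancel, one_mul] at h1
        exact h1
    exact (hρz z).2 (vcl_fix F Ω γ (p * N₀) K ρ (fun z hz => (hρz z).1 (hgen z hz)) z hz)

end Pool.Agent.H18.LG
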