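import Pool.Agent.H29.LG.Targets

/-!
MP_c65535_nt, board lgx_modules, row NUK: choice of the parameters.
-/

set_option autoImplicit false

namespace Pool.Agent.H18.LG

open NumberField Height Finset Polynomial Pool.Agent.H24.RD Pool.Agent.H23.RDD Pool.Agent.H29.RQ
  Pool.Agent.H29.SX Pool.Agent.H29.LG

/-! ### tame functions -/

/-- Nonnegative functions bounded by a constant times a power of `L`. -/
def Tm (u : ℝ → ℕ → ℝ) : Prop :=
  ∃ (a : ℝ) (k : ℕ), 0 ≤ a ∧ ∀ (L : ℝ) (l : ℕ), 1 ≤ L → (l : ℝ) ≤ 2 * L →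
    0 ≤ u L l ∧ u L l ≤ a * L ^ k

theorem tm_const (c : ℝ) (hc : 0 ≤ c) : Tm (fun _ _ => c) :=
  ⟨c, 0, hc, fun L l _ _ => ⟨hc, by simp⟩⟩

theorem tm_L : Tm (fun L _ => L) :=
  ⟨1, 1, zero_le_one, fun L l hL _ => ⟨by linarith, by simp⟩⟩

theorem tm_l : Tm (fun _ l => (l : ℝ)) :=
  ⟨2, 1, zero_le_two, fun L l _ hl => ⟨Nat.cast_nonneg l, by simpa using hl⟩⟩

theorem tm_add {u v : ℝ → ℕ → ℝ} (hu : Tm u) (hv : Tm v) : Tm (fun L l => u L l + v L l) := by
  obtain ⟨a, k, ha, hu⟩ := hu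
  obtain ⟨b, j, hb, hv⟩ := hv
  refine ⟨a + b, k + j, by linarith, fun L l hL hl => ?_⟩
  obtain ⟨h1, h2⟩ := hu L l hL hl
  obtain ⟨h3, h4⟩ := hv L l hL hl
  refine ⟨by linarith, ?_⟩
  have h5 : a * L ^ k ≤ a * L ^ (k + j) :=
    mul_le_mul_of_nonneg_left (pow_le_pow_right₀ hL (by omega)) ha
  have h6 : b * L ^ j ≤ b * L ^ (k + j) :=
    mul_le_mul_of_nonneg_left (pow_le_pow_right₀ hL (by omega)) hb
  rw [add_mul]
  linarith

theorem tm_mul {u v : ℝ → ℕ → ℝ} (hu : Tm u) (hv : Tm v) : Tm (fun L l => u L l * v L l) := by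
  obtain ⟨a, k, ha, hu⟩ := hu
  obtain ⟨b, j, hb, hv⟩ := hv
  refine ⟨a * b, k + j, mul_nonneg ha hb, fun L l hL hl => ?_⟩
  obtain ⟨h1, h2⟩ := hu L l hL hl
  obtain ⟨h3, h4⟩ := hv L l hL hl
  refine ⟨mul_nonneg h1 h3, ?_⟩
  calc u L l * v L l ≤ (a * L ^ k) * (b * L ^ j) :=
        mul_le_mul h2 h4 h3 (h1.trans h2)
    _ = a * b * L ^ (k + j) := by
        rw [pow_add]
        ring

theorem tm_pow {u : ℝ → ℕ → ℝ} (hu : Tm u) (n : ℕ) : Tm (fun L l => u L l ^ n) := by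
  induction n with
  | zero => simpa using tm_const 1 zero_le_one
  | succ n ih =>
    have h := tm_mul ih hu
    simpa only [pow_succ] using h

theorem tm_mono {u v : ℝ → ℕ → ℝ} (hv : Tm v)
    (h : ∀ (L : ℝ) (l : ℕ), 1 ≤ L → (l : ℝ) ≤ 2 * L → 0 ≤ u L l ∧ u L l ≤ v L l) : Tm u := by
  obtain ⟨a, k, ha, hv⟩ := hv
  refine ⟨a, k, ha, fun L l hL hl => ?_⟩
  exact ⟨(h L l hL hl).1, (h L l hL hl).2.trans (hv L l hL hl).2⟩

/-! ### the parameters -/

/-- the multiplicity -/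
noncomputable def pT (a : ℕ) (L : ℝ) : ℕ := ⌈(a : ℝ) * L ^ 2⌉₊

/-- the number of the primes -/
noncomputable def pS (r a : ℕ) (L : ℝ) : ℕ := pT a L ^ (r + 2)

/-- the lower bound for the primes -/
noncomputable def pA (Y : ℕ) (L : ℝ) : ℕ := Y + 20 + ⌈4 * L⌉₊

/-- the upper bound for the primes -/
noncomputable def pY (r CP Y a : ℕ) (L : ℝ) (l : ℕ) : ℕ :=
  CP * (pA Y L + (pS r a L + l) + 1) ^ 2

/-- the bound for the `f`-th powers of the primes -/
noncomputable def pQ (r f CP Y a : ℕ) (L : ℝ) (l : ℕ) : ℝ := ((pY r CP Y a L l : ℝ) + 1) ^ f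

/-- the inverse of the parameter `σ` -/
noncomputable def pI (r f CP Y a : ℕ) (L : ℝ) (l : ℕ) : ℝ :=
  64 * ((pT a L : ℝ) + pS r a L) * (r + 2) * pQ r f CP Y a L l ^ (r + 2)

theorem tm_T (a : ℕ) : Tm (fun L _ => (pT a L : ℝ)) := by
  refine tm_mono (tm_add (tm_mul (tm_const a (Nat.cast_nonneg a)) (tm_pow tm_L 2))
    (tm_const 1 zero_le_one)) ?_
  intro L l hL hl
  refine ⟨Nat.cast_nonneg _, ?_⟩
  exact (Nat.ceil_lt_add_one (by positivity)).le

theorem tm_S (r a : ℕ) : Tm (fun L _ => (pS r a L : ℝ)) := by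
  have h := tm_pow (tm_T a) (r + 2)
  unfold pS
  simpa only [Nat.cast_pow] using h

theorem tm_A (Y : ℕ) : Tm (fun L _ => (pA Y L : ℝ)) := by
  refine tm_mono (tm_add (tm_const ((Y : ℝ) + 21) (by positivity))
    (tm_mul (tm_const 4 (by norm_num)) tm_L)) ?_
  intro L l hL hl
  refine ⟨Nat.cast_nonneg _, ?_⟩
  have h := (Nat.ceil_lt_add_one (show 0 ≤ 4 * L by linarith)).le
  unfold pA
  push_cast
  linarith

theorem tm_Y (r CP Y a : ℕ) : Tm (fun L l => (pY r CP Y a L l : ℝ)) := by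
  have h := tm_mul (tm_const (CP : ℝ) (Nat.cast_nonneg _))
    (tm_pow (tm_add (tm_add (tm_A Y) (tm_add (tm_S r a) tm_l)) (tm_const 1 zero_le_one)) 2)
  refine tm_mono h ?_
  intro L l hL hl
  refine ⟨Nat.cast_nonneg _, ?_⟩
  unfold pY
  push_cast
  exact le_rfl

theorem tm_Q (r f CP Y a : ℕ) : Tm (fun L l => pQ r f CP Y a L l) :=
  tm_pow (tm_add (tm_Y r CP Y a) (tm_const 1 zero_le_one)) f

theorem tm_I (r f CP Y a : ℕ) : Tm (fun L l => pI r f CP Y a L l) :=
  tm_mul (tm_mul (tm_mul (tm_const 64 (by norm_num)) (tm_add (tm_T a) (tm_S r a)))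
    (tm_const ((r : ℝ) + 2) (by positivity))) (tm_pow (tm_Q r f CP Y a) (r + 2))

/-! ### the primes -/

theorem nuk_log21 : (3 : ℝ) < Real.log 21 := by
  rw [Real.lt_log_iff_exp_lt (by norm_num)]
  have h1 : Real.exp 3 = Real.exp 1 ^ 3 := by
    rw [← Real.exp_nat_mul]
    norm_num
  rw [h1]
  have h2 := Real.exp_one_lt_d9
  have h3 : Real.exp 1 ^ 3 < 2.7182818286 ^ 3 :=
    pow_lt_pow_left₀ h2 (Real.exp_pos 1).le (by norm_num)
  refine h3.trans ?_
  norm_num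

theorem nuk_log3 : (1 : ℝ) < Real.log 3 := by
  rw [Real.lt_log_iff_exp_lt (by norm_num)]
  have h2 := Real.exp_one_lt_d9
  linarith

/-- the conditions on the primes -/
theorem nuk_primes (L ld lp p : ℝ) (hL : 1 ≤ L) (hld : ld ≤ L) (hlp : 3 ≤ lp)
    (hp : 20 + 4 * L ≤ p) (hden : 0 < 2 * (ld + lp) + 1 + lp) :
    2 * (ld + lp) + 1 < (p - 1) * lp ∧ 1 / (3 * L) ≤ lp / (2 * (ld + lp) + 1 + lp) * lp := by
  constructor
  · nlinarith [mul_le_mul_of_nonneg_right (show 17 + 4 * L ≤ p - 3 by linarith)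
      (show 0 ≤ lp by linarith), mul_le_mul_of_nonneg_left hlp (show 0 ≤ 17 + 4 * L by linarith)]
  · rw [div_mul_eq_mul_div, div_le_div_iff₀ (by linarith) hden]
    nlinarith [mul_le_mul_of_nonneg_left hlp (show 0 ≤ L * lp by positivity),
      mul_le_mul_of_nonneg_left hlp (show 0 ≤ L by linarith),
      mul_le_mul_of_nonneg_right hL (show 0 ≤ lp by linarith)]

/-! ### the inequality -/

theorem nuk_ineq (r s t : ℕ) (L c5 a1 Z : ℝ) (hL : 1 ≤ L) (_ : 0 ≤ c5) (ht1 : 1 ≤ t)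
    (hs : s = t ^ (r + 2)) (hta : a1 * L ^ 2 ≤ t)
    (ha1 : 3 * (2 * (r + 1) * (1 + c5) + 8 + c5) < a1) (hZ1 : 1 ≤ Z)
    (hZ : Real.log Z ≤ c5 * L) (R d0 r0 : ℕ) (hr0 : 1 ≤ r0) (hd0 : d0 ≤ t ^ (r + 1) * r0)
    (hR : d0 + s * r0 ≤ R) (hRZ : (R : ℝ) ≤ (2 * Z) ^ (r + 1)) :
    R * Real.log R + 4 * R + d0 * t * Real.log Z < ((R : ℝ) - d0) * (t * (1 / (3 * L))) := by
  have htpos : 0 < t := ht1
  have hs1 : 1 ≤ s := by
    rw [hs]
    exact Nat.one_le_pow _ _ htpos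
  -- `D = R - d0`
  obtain ⟨D, hD⟩ : ∃ D : ℕ, R = d0 + D := ⟨R - d0, by omega⟩
  have hsD : s * r0 ≤ D := by omega
  have hD1 : 1 ≤ D := le_trans (Nat.mul_pos hs1 hr0) hsD
  have htd : t * d0 ≤ D := by
    refine le_trans ?_ hsD
    calc t * d0 ≤ t * (t ^ (r + 1) * r0) := Nat.mul_le_mul_left _ hd0
      _ = s * r0 := by
        rw [hs]
        ring
  have hdD : d0 ≤ D := le_trans (Nat.le_mul_of_pos_left d0 htpos) htd
  have hDr : (1 : ℝ) ≤ D := by exact_mod_cast hD1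
  have htdr : (t : ℝ) * d0 ≤ D := by exact_mod_cast htd
  have hRr : (R : ℝ) = d0 + D := by
    rw [hD]
    push_cast
    ring
  have hR2 : (R : ℝ) ≤ 2 * D := by
    have : (d0 : ℝ) ≤ D := by exact_mod_cast hdD
    linarith
  have hR1 : (1 : ℝ) ≤ R := by
    have : (0 : ℝ) ≤ d0 := Nat.cast_nonneg _
    linarith
  have hlogR : Real.log R ≤ (r + 1) * (1 + c5) * L := by
    have h1 : Real.log R ≤ Real.log ((2 * Z) ^ (r + 1)) := Real.log_le_log (by linarith) hRZ
    rw [Real.log_pow, Real.log_mul (by norm_num) (by linarith)] at h1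
    have h2 : Real.log 2 ≤ 1 := by
      have := Real.log_two_lt_d9
      linarith
    have h3 : Real.log 2 + Real.log Z ≤ (1 + c5) * L := by
      rw [add_mul, one_mul]
      linarith
    have h4 : ((r + 1 : ℕ) : ℝ) * (Real.log 2 + Real.log Z) ≤ ((r + 1 : ℕ) : ℝ) * ((1 + c5) * L) :=
      mul_le_mul_of_nonneg_left h3 (Nat.cast_nonneg _)
    push_cast at h1 h4
    linarith
  have hlogR0 : 0 ≤ Real.log R := Real.log_nonneg hR1
  have hlogZ0 : 0 ≤ Real.log Z := Real.log_nonneg hZ1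
  have e1 : (R : ℝ) * Real.log R ≤ 2 * D * ((r + 1) * (1 + c5) * L) :=
    mul_le_mul hR2 hlogR hlogR0 (by linarith)
  have e2 : (d0 : ℝ) * t * Real.log Z ≤ D * (c5 * L) := by
    refine mul_le_mul ?_ hZ hlogZ0 (by linarith)
    linarith
  have e3 : 4 * (R : ℝ) ≤ D * (8 * L) := by
    nlinarith
  have e4 : (R : ℝ) - d0 = D := by linarith
  rw [e4]
  have hc6 : 2 * D * ((r + 1) * (1 + c5) * L) + D * (8 * L) + D * (c5 * L) =
      D * ((2 * (r + 1) * (1 + c5) + 8 + c5) * L) := by ring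
  have h5 : (2 * (r + 1) * (1 + c5) + 8 + c5) * L < t * (1 / (3 * L)) := by
    rw [mul_one_div, lt_div_iff₀ (by linarith)]
    have h6 : (2 * (r + 1) * (1 + c5) + 8 + c5) * L * (3 * L) =
        3 * (2 * (r + 1) * (1 + c5) + 8 + c5) * L ^ 2 := by ring
    rw [h6]
    refine lt_of_lt_of_le ?_ hta
    exact mul_lt_mul_of_pos_right ha1 (by positivity)
  have h7 : (D : ℝ) * ((2 * (r + 1) * (1 + c5) + 8 + c5) * L) < D * (t * (1 / (3 * L))) :=
    mul_lt_mul_of_pos_left h5 (by linarith)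
  linarith

theorem pf_NUK : T_NUK := by
  intro r f CP Y0 H c₁ c₃ hf hH hc₁ hc₃
  -- the constants
  set c5 : ℝ := 2 * r + 2 + Real.log (2 + 1 / c₁) with hc5
  have hlog2c : 0 ≤ Real.log (2 + 1 / c₁) := Real.log_nonneg (by
    have : 0 < 1 / c₁ := by positivity
    linarith)
  have hc50 : 0 ≤ c5 := by
    have : (0 : ℝ) ≤ r := Nat.cast_nonneg r
    linarith
  obtain ⟨a1, ha1⟩ := exists_nat_gt (3 * (2 * (r + 1) * (1 + c5) + 8 + c5))
  have hbig : Tm (fun L l => 2 * (pY r CP Y0 a1 L l : ℝ) ^ 2 +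
      H ^ r * pI r f CP Y0 a1 L l ^ (r + 1) / c₃) := by
    refine tm_add (tm_mul (tm_const 2 (by norm_num)) (tm_pow (tm_Y r CP Y0 a1) 2)) ?_
    have h := tm_mul (tm_mul (tm_const (H ^ r) (by positivity))
      (tm_pow (tm_I r f CP Y0 a1) (r + 1))) (tm_const (1 / c₃) (by positivity))
    refine tm_mono h ?_
    intro L l hL hl
    obtain ⟨b, k, hb, hv⟩ := h
    have h1 := (hv L l hL hl).1
    simp only [mul_one_div] at h1
    refine ⟨h1, ?_⟩
    simp only [mul_one_div, le_refl]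
  obtain ⟨a, k, ha, hak⟩ := hbig
  refine ⟨1 / (2 * (a + 1)), k, by positivity, ?_⟩
  intro K d lam hK hd hlam hc1 hsmall
  set L : ℝ := Real.log (3 * d * K) with hLdef
  have hKr : (1 : ℝ) ≤ K := by exact_mod_cast hK
  have hdr : (1 : ℝ) ≤ d := by exact_mod_cast hd
  have hdK1 : (1 : ℝ) ≤ d * K := by nlinarith
  have hX3 : (3 : ℝ) ≤ 3 * d * K := by nlinarith
  have hL1 : 1 ≤ L := by
    have h1 := nuk_log3
    have h2 : Real.log 3 ≤ L := Real.log_le_log (by norm_num) hX3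
    linarith
  have hld : Real.log d ≤ L := by
    refine Real.log_le_log (by linarith) ?_
    nlinarith
  have hlK : Real.log K ≤ L := by
    refine Real.log_le_log (by linarith) ?_
    nlinarith
  have hlogK : (Nat.log 2 K : ℝ) ≤ 2 * L := by
    have h1 : (2 : ℝ) ^ (Nat.log 2 K) ≤ K := by exact_mod_cast Nat.pow_log_le_self 2 hK.ne'
    have h2 := Real.log_le_log (by positivity) h1
    rw [Real.log_pow] at h2
    have h3 := Real.log_two_gt_d9
    have h4 : (0 : ℝ) ≤ Nat.log 2 K := Nat.cast_nonneg _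
    nlinarith
  set l := Nat.log 2 K with hl
  obtain ⟨hbig0, hbig1⟩ := hak L l hL1 hlogK
  have hLk : (0 : ℝ) < L ^ k := by positivity
  have hsm : lam * d * (a * L ^ k) < 1 := by
    have h1 : lam * d * L ^ k * (2 * (a + 1)) < 1 := by
      rwa [lt_div_iff₀ (by positivity)] at hsmall
    have h2 : 0 < lam * d * L ^ k := by positivity
    nlinarith
  have hY0 : (0 : ℝ) ≤ 2 * (pY r CP Y0 a1 L l : ℝ) ^ 2 := by positivity
  -- the parameter `t`
  have hta : (a1 : ℝ) * L ^ 2 ≤ pT a1 L := Nat.le_ceil _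
  have ha1pos : (0 : ℝ) < a1 := by
    have : (0 : ℝ) ≤ 3 * (2 * (r + 1) * (1 + c5) + 8 + c5) := by positivity
    linarith
  have ht1 : 1 ≤ pT a1 L := by
    have : 0 < (a1 : ℝ) * L ^ 2 := by positivity
    exact Nat.ceil_pos.2 this
  have hQ1 : 1 ≤ pQ r f CP Y0 a1 L l := by
    unfold pQ
    exact one_le_pow₀ (by
      have : (0 : ℝ) ≤ pY r CP Y0 a1 L l := Nat.cast_nonneg _
      linarith)
  set Q := pQ r f CP Y0 a1 L l with hQ
  have hI0 : 0 < pI r f CP Y0 a1 L l := by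
    unfold pI
    have h1 : (1 : ℝ) ≤ pT a1 L := by exact_mod_cast ht1
    have h2 : (0 : ℝ) ≤ pS r a1 L := Nat.cast_nonneg _
    positivity
  have hI2 : 0 ≤ H ^ r * pI r f CP Y0 a1 L l ^ (r + 1) / c₃ := by positivity
  refine ⟨pS r a1 L, pT a1 L, pA Y0 L, pS r a1 L + l, 1 / pI r f CP Y0 a1 L l, 1 / Q, Q,
    1 / (3 * L), ht1, by positivity, by positivity, hQ1, ?_, ?_, le_rfl, ?_, ?_, ?_, ?_⟩
  · unfold pA
    omega
  · unfold pA
    omega
  · -- the primes
    intro p hAp hpY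
    have hpA : (20 : ℝ) + 4 * L ≤ p := by
      have h1 : (4 * L : ℝ) ≤ ⌈4 * L⌉₊ := Nat.le_ceil _
      have h2 : ((pA Y0 L : ℕ) : ℝ) < p := by exact_mod_cast hAp
      unfold pA at h2
      push_cast at h2
      have h3 : (0 : ℝ) ≤ Y0 := Nat.cast_nonneg _
      linarith
    have hp21 : (21 : ℝ) ≤ p := by linarith
    have hlp : (3 : ℝ) ≤ Real.log p := by
      have h1 := nuk_log21
      have h2 := Real.log_le_log (by norm_num) hp21
      linarith
    have hpYr : (p : ℝ) ≤ pY r CP Y0 a1 L l := by exact_mod_cast hpY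
    have hldp : Real.log (d * p) = Real.log d + Real.log p :=
      Real.log_mul (by linarith) (by linarith)
    have hld0 : 0 ≤ Real.log d := Real.log_nonneg hdr
    rw [hldp]
    obtain ⟨h1, h2⟩ := nuk_primes L (Real.log d) (Real.log p) p hL1 hld hlp hpA (by linarith)
    refine ⟨h1, ?_, ?_, h2⟩
    · have h3 : (p : ℝ) ^ 2 ≤ (pY r CP Y0 a1 L l : ℝ) ^ 2 :=
        pow_le_pow_left₀ (by linarith) hpYr 2
      have h4 : 2 * (pY r CP Y0 a1 L l : ℝ) ^ 2 ≤ a * L ^ k := by linarith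
      have h5 : lam * d * (2 * (p : ℝ) ^ 2) ≤ lam * d * (a * L ^ k) :=
        mul_le_mul_of_nonneg_left (by linarith) (by positivity)
      linarith
    · rw [hQ]
      unfold pQ
      exact pow_le_pow_left₀ (by linarith) (by linarith) f
  · -- `σ`
    rw [mul_one_div, div_le_div_iff₀ hI0 (by linarith), one_mul]
    have : 64 * ((pT a1 L : ℝ) + pS r a1 L) * (r + 2) * Q ^ (r + 1) * Q =
        pI r f CP Y0 a1 L l := by
      unfold pI
      rw [← hQ]
      ring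
    rw [this]
  · -- the number of the lattice points
    have hHK : 0 < (H / K) ^ r := by positivity
    rw [lt_div_iff₀ (by positivity), one_div, inv_pow]
    have h1 : H ^ r * pI r f CP Y0 a1 L l ^ (r + 1) / c₃ ≤ a * L ^ k := by linarith
    have h2 : lam * d * (H ^ r * pI r f CP Y0 a1 L l ^ (r + 1) / c₃) < 1 :=
      lt_of_le_of_lt (mul_le_mul_of_nonneg_left h1 (by positivity)) hsm
    have h3 : (K : ℝ) ^ r * d * (lam * (H / K) ^ r) = lam * d * H ^ r := by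
      rw [div_pow]
      field_simp
    rw [h3]
    have hI' : 0 < pI r f CP Y0 a1 L l ^ (r + 1) := by positivity
    rw [← div_eq_mul_inv, lt_div_iff₀ hI']
    rw [mul_div_assoc', div_lt_one hc₃] at h2
    linarith
  · -- the inequality
    intro R d0 r0 hr0 hd0 hR hRle
    have hρQ : 4 * (R : ℝ) * (1 / Q) * Q = 4 * R := by
      field_simp
    rw [hρQ]
    have hQinv : 1 / Q ≤ 1 := by
      rw [div_le_one (by linarith)]
      exact hQ1
    have hQinv0 : 0 < 1 / Q := by positivity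
    set Z : ℝ := 1 + 1 / Q * K + 1 / Q / lam with hZ
    have hZa : 0 ≤ 1 / Q * K := by positivity
    have hZb : 0 ≤ 1 / Q / lam := by positivity
    have hZ1 : 1 ≤ Z := by linarith
    have hZlog : Real.log Z ≤ c5 * L := by
      set X : ℝ := 3 * d * K with hX
      have hX1 : 1 ≤ X := by linarith
      have hZle : Z ≤ (2 + 1 / c₁) * X ^ (2 * r + 2) := by
        have h1 : (1 : ℝ) ≤ X ^ (2 * r + 2) := one_le_pow₀ hX1
        have h2 : (K : ℝ) ≤ X ^ (2 * r + 2) := by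
          have h3 : (K : ℝ) ≤ X := by nlinarith
          exact h3.trans (le_self_pow₀ hX1 (by omega))
        have h3 : 1 / lam ≤ 1 / c₁ * X ^ (2 * r + 2) := by
          rw [div_mul_eq_mul_div, one_mul, div_le_div_iff₀ hlam hc₁, one_mul]
          have h4 : (K : ℝ) ^ r * d ≤ X ^ r * X := by
            refine mul_le_mul (pow_le_pow_left₀ (by linarith) (by nlinarith) r) (by nlinarith)
              (by linarith) (by positivity)
          have h5 : ((K : ℝ) ^ r * d) ^ 2 ≤ X ^ (2 * r + 2) := by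
            calc ((K : ℝ) ^ r * d) ^ 2 ≤ (X ^ r * X) ^ 2 :=
                  pow_le_pow_left₀ (by positivity) h4 2
              _ = X ^ (2 * r + 2) := by ring
          calc c₁ ≤ lam * ((K : ℝ) ^ r * d) ^ 2 := hc1
            _ ≤ lam * X ^ (2 * r + 2) := mul_le_mul_of_nonneg_left h5 hlam.le
            _ = X ^ (2 * r + 2) * lam := mul_comm _ _
        have h6 : 1 / Q * K ≤ K := by nlinarith
        have h7 : 1 / Q / lam ≤ 1 / lam := by
          exact div_le_div_of_nonneg_right hQinv hlam.le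
        calc Z ≤ 1 + K + 1 / lam := by linarith
          _ ≤ X ^ (2 * r + 2) + X ^ (2 * r + 2) + 1 / c₁ * X ^ (2 * r + 2) := by linarith
          _ = (2 + 1 / c₁) * X ^ (2 * r + 2) := by ring
      have hX0 : 0 < X ^ (2 * r + 2) := by positivity
      have h8 := Real.log_le_log (by linarith) hZle
      rw [Real.log_mul (by positivity) hX0.ne', Real.log_pow] at h8
      have h9 : Real.log (2 + 1 / c₁) ≤ Real.log (2 + 1 / c₁) * L :=
        le_mul_of_one_le_right hlog2c hL1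
      have h10 : ((2 * r + 2 : ℕ) : ℝ) * Real.log X = (2 * r + 2) * L := by
        push_cast
        rfl
      rw [h10] at h8
      rw [hc5]
      linarith
    refine nuk_ineq r (pS r a1 L) (pT a1 L) L c5 a1 Z hL1 hc50 ht1 rfl hta ha1 hZ1 hZlog R d0 r0
      hr0 hd0 hR (hRle.trans ?_)
    refine pow_le_pow_left₀ (by linarith) ?_ _
    linarith

end Pool.Agent.H18.LG
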